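import Mathlib

/-!
# Numerical inequalities for families of low complexity
-/

set_option autoImplicit false

namespace Pool.Agent.P8H38.EN

open Filter Topology

/-- logarithms are smaller than small multiples of powers -/
lemma log_le_pow {c e : ℝ} (hc : 0 < c) (he : 0 < e) :
    ∃ L₀ : ℕ, ∀ L : ℕ, L₀ ≤ L → Real.log L ≤ e * (L : ℝ) ^ c := by
  have h := (isLittleO_log_rpow_atTop hc).bound he
  have h2 := tendsto_natCast_atTop_atTop.eventually (h.and (eventually_ge_atTop (1 : ℝ)))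
  obtain ⟨L₀, hL⟩ := eventually_atTop.1 h2
  refine ⟨L₀, fun L hL0 => ?_⟩
  obtain ⟨h3, h4⟩ := hL L hL0
  rw [Real.norm_of_nonneg (Real.log_nonneg h4),
    Real.norm_of_nonneg (Real.rpow_nonneg (by linarith) _)] at h3
  exact h3

/-- powers tend to infinity -/
lemma pow_ge {c : ℝ} (hc : 0 < c) (M : ℝ) :
    ∃ L₀ : ℕ, ∀ L : ℕ, L₀ ≤ L → M ≤ (L : ℝ) ^ c := by
  have h := ((tendsto_rpow_atTop hc).comp tendsto_natCast_atTop_atTop).eventually
    (eventually_ge_atTop M)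
  exact eventually_atTop.1 h

/-- the number of the sign patterns of the solutions of linear recurrences is small -/
lemma num_rcv {c κ : ℝ} (hc : 0 < c) (hκ : 0 < κ) : ∃ L₀ : ℕ, ∀ (L k d : ℕ), L₀ ≤ L →
    (L : ℝ) ^ (2 * c) ≤ k → k ≤ L → (d : ℝ) ≤ (L : ℝ) ^ c →
    (4 * k * (((L ^ 2 + 1 : ℕ) : ℝ) + 1) + 2 : ℝ) ^ (2 * d + 1) ≤ Real.exp (κ * k) := by
  obtain ⟨L1, h1⟩ := log_le_pow hc (show 0 < κ / 12 by positivity)
  refine ⟨max L1 5, fun L k d hL hk hkL hd => ?_⟩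
  have hL1 := h1 L ((le_max_left _ _).trans hL)
  have hL5 : (5 : ℝ) ≤ L := by exact_mod_cast (le_max_right _ _).trans hL
  have hL0 : (0 : ℝ) < L := by linarith
  have hkR : (k : ℝ) ≤ L := by exact_mod_cast hkL
  have hk0 : (0 : ℝ) ≤ k := Nat.cast_nonneg _
  have hp1 : (1 : ℝ) ≤ (L : ℝ) ^ c := Real.one_le_rpow (by linarith) hc.le
  have hlog0 : 0 ≤ Real.log L := Real.log_nonneg (by linarith)
  have hB : (4 * k * (((L ^ 2 + 1 : ℕ) : ℝ) + 1) + 2 : ℝ) ≤ (L : ℝ) ^ 4 := by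
    push_cast
    have h2 : (4 * k * ((L : ℝ) ^ 2 + 1 + 1) + 2 : ℝ) ≤ 4 * L * ((L : ℝ) ^ 2 + 1 + 1) + 2 := by
      gcongr
    refine h2.trans ?_
    nlinarith [pow_pos hL0 3, pow_pos hL0 2, mul_le_mul_of_nonneg_left hL5 (pow_pos hL0 3).le,
      mul_le_mul_of_nonneg_left hL5 (pow_pos hL0 2).le]
  have hB0 : (0 : ℝ) < 4 * k * (((L ^ 2 + 1 : ℕ) : ℝ) + 1) + 2 := by positivity
  calc (4 * k * (((L ^ 2 + 1 : ℕ) : ℝ) + 1) + 2 : ℝ) ^ (2 * d + 1)
      ≤ ((L : ℝ) ^ 4) ^ (2 * d + 1) := pow_le_pow_left₀ hB0.le hB _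
    _ = Real.exp ((2 * d + 1) * (4 * Real.log L)) := by
        rw [← pow_mul, ← Real.exp_log (pow_pos hL0 (4 * (2 * d + 1))), Real.log_pow]
        congr 1
        push_cast
        ring
    _ ≤ Real.exp (κ * k) := by
        apply Real.exp_le_exp.2
        have h3 : (2 * (d : ℝ) + 1) * (4 * Real.log L) ≤
            (3 * (L : ℝ) ^ c) * (4 * (κ / 12 * (L : ℝ) ^ c)) := by
          apply mul_le_mul
          · linarith
          · linarith
          · positivity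
          · positivity
        refine h3.trans ?_
        have h4 : (L : ℝ) ^ (2 * c) = (L : ℝ) ^ c * (L : ℝ) ^ c := by
          rw [← Real.rpow_add hL0]
          congr 1
          ring
        have h5 : (3 * (L : ℝ) ^ c) * (4 * (κ / 12 * (L : ℝ) ^ c)) = κ * (L : ℝ) ^ (2 * c) := by
          rw [h4]
          ring
        rw [h5]
        exact mul_le_mul_of_nonneg_left hk hκ.le

/-- the number of the sign patterns of the curves with few parameters is small -/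
lemma num_pol {c κ : ℝ} (hc : 0 < c) (hc1 : 4 * c ≤ 1) (hκ : 0 < κ) : ∃ L₀ : ℕ, ∀ (L D : ℕ), L₀ ≤ L →
    (D : ℝ) ≤ (L : ℝ) ^ c →
    (4 * (⌈(L : ℝ) ^ (4 * c)⌉₊ : ℕ) * ((⌊Real.exp ((L : ℝ) ^ c)⌋₊ : ℕ) + 1) + 2 : ℝ) ^ (D + 1) ≤
      Real.exp (κ * (⌈(L : ℝ) ^ (4 * c)⌉₊ : ℕ)) := by
  obtain ⟨L1, h1⟩ := log_le_pow hc (show (0 : ℝ) < 1 by norm_num)
  obtain ⟨L2, h2⟩ := pow_ge hc (max 3 (8 / κ))
  refine ⟨max (max L1 L2) 1, fun L D hL hD => ?_⟩
  have hL1 := h1 L ((le_max_left _ _).trans ((le_max_left _ _).trans hL))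
  have hL2 := h2 L ((le_max_right _ _).trans ((le_max_left _ _).trans hL))
  have hLge : (1 : ℝ) ≤ L := by exact_mod_cast (le_max_right _ _).trans hL
  have hL0 : (0 : ℝ) < L := by linarith
  set x := (L : ℝ) ^ c with hx
  have hx3 : 3 ≤ x := (le_max_left _ _).trans hL2
  have hx8 : 8 / κ ≤ x := (le_max_right _ _).trans hL2
  set K := ⌈(L : ℝ) ^ (4 * c)⌉₊ with hK
  have hKge : (L : ℝ) ^ (4 * c) ≤ K := Nat.le_ceil _
  have hK4 : (L : ℝ) ^ (4 * c) = x ^ 4 := by
    rw [hx, ← Real.rpow_natCast, ← Real.rpow_mul hL0.le]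
    congr 1
    push_cast
    ring
  have hKle : (K : ℝ) ≤ L := by
    have : K ≤ L := by
      rw [hK]
      apply Nat.ceil_le.2
      calc (L : ℝ) ^ (4 * c) ≤ (L : ℝ) ^ (1 : ℝ) := Real.rpow_le_rpow_of_exponent_le hLge hc1
        _ = L := Real.rpow_one _
    exact_mod_cast this
  have hm : ((⌊Real.exp x⌋₊ : ℕ) : ℝ) ≤ Real.exp x := Nat.floor_le (Real.exp_pos _).le
  have he1 : 1 ≤ Real.exp x := Real.one_le_exp (by linarith)
  have hexpL : (L : ℝ) ≤ Real.exp x := by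
    rw [← Real.exp_log hL0]
    exact Real.exp_le_exp.2 (by linarith)
  have h10 : (10 : ℝ) ≤ Real.exp x := by
    have : Real.exp 1 ≥ 2.7 := by
      have := Real.exp_one_gt_d9
      linarith
    have h3 : Real.exp 3 = Real.exp 1 ^ 3 := by
      rw [← Real.exp_nat_mul]
      norm_num
    have h4 : Real.exp 3 ≤ Real.exp x := Real.exp_le_exp.2 hx3
    have h5 : (2.7 : ℝ) ^ 3 ≤ Real.exp 1 ^ 3 := pow_le_pow_left₀ (by norm_num) this 3
    rw [h3] at h4
    norm_num at h5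
    linarith
  have hB : (4 * K * ((⌊Real.exp x⌋₊ : ℕ) + 1) + 2 : ℝ) ≤ Real.exp (3 * x) := by
    have e3 : Real.exp (3 * x) = Real.exp x * Real.exp x * Real.exp x := by
      rw [← Real.exp_add, ← Real.exp_add]
      congr 1
      ring
    rw [e3]
    have h5 : (4 * K * ((⌊Real.exp x⌋₊ : ℕ) + 1) + 2 : ℝ) ≤
        4 * Real.exp x * (Real.exp x + Real.exp x) + 2 * (Real.exp x * Real.exp x) := by
      have h6 : (K : ℝ) ≤ Real.exp x := hKle.trans hexpL
      have h7 : (1 : ℝ) ≤ Real.exp x * Real.exp x := one_le_mul_of_one_le_of_one_le he1 he1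
      gcongr
      linarith
    refine h5.trans ?_
    have h8 : 4 * Real.exp x * (Real.exp x + Real.exp x) + 2 * (Real.exp x * Real.exp x) =
        10 * (Real.exp x * Real.exp x) := by ring
    rw [h8]
    have h9 : 0 ≤ Real.exp x * Real.exp x := by positivity
    nlinarith
  have hB0 : (0 : ℝ) ≤ 4 * K * ((⌊Real.exp x⌋₊ : ℕ) + 1) + 2 := by positivity
  calc (4 * K * ((⌊Real.exp x⌋₊ : ℕ) + 1) + 2 : ℝ) ^ (D + 1)
      ≤ (Real.exp (3 * x)) ^ (D + 1) := pow_le_pow_left₀ hB0 hB _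
    _ = Real.exp ((D + 1) * (3 * x)) := by
        rw [← Real.exp_nat_mul]
        push_cast
        rfl
    _ ≤ Real.exp (κ * K) := by
        apply Real.exp_le_exp.2
        have h3 : ((D : ℝ) + 1) * (3 * x) ≤ (x + x) * (3 * x) := by
          gcongr
          linarith
        refine h3.trans ?_
        refine le_trans ?_ (mul_le_mul_of_nonneg_left hKge hκ.le)
        rw [hK4]
        have hkx : 8 ≤ κ * x := by
          rw [div_le_iff₀ hκ] at hx8
          linarith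
        have hx0 : 0 < x := by linarith
        have h6 : κ * x ^ 4 = (κ * x) * x * (x * x) := by ring
        rw [h6]
        have h7 : 8 * 1 ≤ (κ * x) * x := by
          apply mul_le_mul hkx (by linarith) (by norm_num) (by linarith)
        nlinarith [mul_pos hx0 hx0]

end Pool.Agent.P8H38.EN
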