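import Pool.Agent.P8H60.EN.Stm3
import Pool.Agent.P8H38.EN.Num

/-!
# Project EN, package POL: curves with few parameters
-/

set_option autoImplicit false

namespace Pool.Agent.P8H38.EN

open Pool.Agent.P8H60.EN
open Pool.Agent.P8H60.BC (pG pv pb pat Fd)
open Pool.Agent.P8H60.BW (W hitW hwW)
open Pool.Agent.R846.UL (cn cn_mono)

theorem t_POL : S_POLA := by
  intro hF hW δ ε η θ hδ hε hη hθ
  obtain ⟨c₁, κ, hc, hc1, hκ, L₁, h⟩ := hF δ ε η θ hδ hε hη hθ
  obtain ⟨L₂, hnum⟩ := num_pol (c := c₁ / 4) (κ := κ) (by positivity) (by linarith) hκ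
  refine ⟨c₁ / 4, by positivity, max L₁ L₂, fun L N hL hLN D P hD hP => ?_⟩
  have h4 : 4 * (c₁ / 4) = c₁ := by ring
  have hnum' := hnum L D ((le_max_right _ _).trans hL) hD
  rw [h4] at hnum'
  refine le_trans (cn_mono fun n _ _ hn => ?_) (h L N ((le_max_left _ _).trans hL) hLN
    {f | ∃ (x : Fin D → ℝ) (b : ℝ), f = fun j => MvPolynomial.eval x (P j) + b} ?_ ?_)
  · obtain ⟨x, b, hx⟩ := hn
    exact ⟨_, ⟨x, b, rfl⟩, hx⟩
  · rintro f ⟨x, b, rfl⟩ b'
    exact ⟨x, b + b', by funext j; ring⟩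
  · generalize ⌈(L : ℝ) ^ c₁⌉₊ = K at hnum' ⊢
    intro b s y hs hb hsK
    have hdeg : ∀ i : Fin K, (P (b + i * s)).totalDegree ≤
        ⌊Real.exp ((L : ℝ) ^ (c₁ / 4))⌋₊ := by
      intro i
      apply Nat.le_floor
      apply hP
      have h1 : (i : ℕ) + 1 ≤ K := i.isLt
      calc b + i * s ≤ s + i * s := by omega
        _ = (i + 1) * s := by ring
        _ ≤ K * s := Nat.mul_le_mul_right _ h1
        _ = s * K := mul_comm _ _
        _ ≤ L := hsK
    have hw := hW K D _ (fun i => P (b + i * s)) y hdeg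
    have hsub : pb {f | ∃ (x : Fin D → ℝ) (b : ℝ), f = fun j => MvPolynomial.eval x (P j) + b} b s K y ⊆
        {A : Set (Fin K) | ∃ (x : Fin D → ℝ) (b' : ℝ),
          A = {i : Fin K | MvPolynomial.eval x (P (b + i * s)) + b' ≤ y i}} := by
      rintro A ⟨f, ⟨x, b', rfl⟩, rfl⟩
      exact ⟨x, b', rfl⟩
    have h1 : ((pb {f | ∃ (x : Fin D → ℝ) (b : ℝ), f = fun j => MvPolynomial.eval x (P j) + b}
        b s K y).ncard : ℝ) ≤ (({A : Set (Fin K) | ∃ (x : Fin D → ℝ) (b' : ℝ),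
          A = {i : Fin K | MvPolynomial.eval x (P (b + i * s)) + b' ≤ y i}}).ncard : ℝ) := by
      exact_mod_cast Set.ncard_le_ncard hsub (Set.toFinite _)
    exact (h1.trans hw).trans hnum'

end Pool.Agent.P8H38.EN
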